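import Mathlib

set_option autoImplicit false

/-!
# The two-thirds bound for locating-total domination of twin-free graphs

`main`: in a finite graph without isolated vertices and without twins there is a
total dominating set `C` such that the vertices outside `C` have at least `n / 3` distinct
traces on `C`.
-/

open Finset

namespace Pool.Agent.LTD

open Classical

variable {V : Type} [Fintype V] (G : SimpleGraph V)

/-- The trace of `v` on `C`. -/
noncomputable def tr (C : Finset V) (v : V) : Finset V := C.filter (fun w => G.Adj v w)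

/-- The number of traces on `C` of the vertices of `T`. -/
noncomputable def num (C T : Finset V) : ℕ := (T.image (tr G C)).card

/-- `C` is total dominating. -/
def TD (C : Finset V) : Prop := ∀ v, ∃ u ∈ C, G.Adj v u

variable {G}

lemma mem_tr {C : Finset V} {v w : V} : w ∈ tr G C v ↔ w ∈ C ∧ G.Adj v w := by
  simp [tr]

lemma tr_subset {C : Finset V} {v : V} : tr G C v ⊆ C := filter_subset _ _

lemma tr_inter {C X : Finset V} (h : C ⊆ X) (v : V) : tr G X v ∩ C = tr G C v := by
  ext w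
  simp only [mem_inter, mem_tr]
  constructor
  · rintro ⟨⟨_, h2⟩, h3⟩
    exact ⟨h3, h2⟩
  · rintro ⟨h1, h2⟩
    exact ⟨⟨h h1, h2⟩, h1⟩

lemma tr_erase {C : Finset V} {a v : V} : tr G (C.erase a) v = (tr G C v).erase a := by
  ext w
  simp only [mem_tr, mem_erase]
  tauto

lemma tr_eq_of_subset {C X : Finset V} (h : C ⊆ X) {u v : V} (he : tr G X u = tr G X v) :
    tr G C u = tr G C v := by
  rw [← tr_inter h u, ← tr_inter h v, he]

lemma image_inter {C X : Finset V} (h : C ⊆ X) (T : Finset V) :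
    (T.image (tr G X)).image (fun A => A ∩ C) = T.image (tr G C) := by
  rw [image_image]
  apply image_congr
  intro v _
  exact tr_inter h v

lemma num_mono_left {C X : Finset V} (h : C ⊆ X) (T : Finset V) : num G C T ≤ num G X T := by
  unfold num
  rw [← image_inter h T]
  exact card_image_le

lemma num_lt {C X T : Finset V} {u v : V} (h : C ⊆ X) (hu : u ∈ T) (hv : v ∈ T)
    (he : tr G C u = tr G C v) (hne : tr G X u ≠ tr G X v) : num G C T < num G X T := by
  unfold num
  rw [← image_inter h T]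
  apply lt_of_le_of_ne card_image_le
  intro hcard
  rw [card_image_iff] at hcard
  apply hne
  apply hcard
  · exact mem_coe.2 (mem_image_of_mem _ hu)
  · exact mem_coe.2 (mem_image_of_mem _ hv)
  · simp only
    rw [tr_inter h, tr_inter h, he]

lemma num_mono_right {C T T' : Finset V} (h : T ⊆ T') : num G C T ≤ num G C T' :=
  card_le_card (image_subset_image h)

lemma num_erase {C T : Finset V} {w : V} : num G C T ≤ num G C (T.erase w) + 1 := by
  unfold num
  by_cases hw : w ∈ T
  · conv_lhs => rw [← insert_erase hw]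
    rw [image_insert]
    exact card_insert_le _ _
  · rw [erase_eq_of_notMem hw]
    omega

lemma num_erase_eq {C T : Finset V} {w w' : V} (h : w' ∈ T) (hne : w' ≠ w)
    (he : tr G C w' = tr G C w) : num G C T ≤ num G C (T.erase w) := by
  unfold num
  apply card_le_card
  intro A hA
  rw [mem_image] at hA ⊢
  obtain ⟨v, hv, rfl⟩ := hA
  by_cases hvw : v = w
  · exact ⟨w', mem_erase.2 ⟨hne, h⟩, by rw [he, hvw]⟩
  · exact ⟨v, mem_erase.2 ⟨hvw, hv⟩, rfl⟩

lemma num_insert {C T : Finset V} {w : V} (h : ∀ v ∈ T, tr G C v ≠ tr G C w) :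
    num G C (insert w T) = num G C T + 1 := by
  unfold num
  rw [image_insert, card_insert_of_notMem]
  rw [mem_image]
  rintro ⟨v, hv, hvw⟩
  exact h v hv hvw

lemma num_erase_left {C T : Finset V} {a : V}
    (h : ∀ u ∈ T, ∀ v ∈ T, tr G (C.erase a) u = tr G (C.erase a) v → tr G C u = tr G C v) :
    num G C T ≤ num G (C.erase a) T := by
  by_contra hlt
  push Not at hlt
  unfold num at hlt
  rw [← image_inter (erase_subset a C) T] at hlt
  have := (card_image_iff (s := T.image (tr G C)) (f := fun A => A ∩ C.erase a)).2 (by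
    intro A hA B hB hAB
    rw [mem_coe, mem_image] at hA hB
    obtain ⟨u, hu, rfl⟩ := hA
    obtain ⟨v, hv, rfl⟩ := hB
    apply h u hu v hv
    simpa [tr_inter (erase_subset a C)] using hAB)
  omega

lemma TD.mono {C X : Finset V} (h : TD G C) (hCX : C ⊆ X) : TD G X := by
  intro v
  obtain ⟨u, hu, huv⟩ := h v
  exact ⟨u, hCX hu, huv⟩

lemma TD.nonempty {C : Finset V} (h : TD G C) (v : V) : (tr G C v).Nonempty := by
  obtain ⟨u, hu, huv⟩ := h v
  exact ⟨u, mem_tr.2 ⟨hu, huv⟩⟩

/-- Rank lemma: if every element `w` of `W` is a member `{w}` of the family or the difference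
of two members differing exactly by `w`, then at least `|W|` members meet `W`. -/
lemma rank_lemma (F : Finset (Finset V)) (W : Finset V)
    (h : ∀ w ∈ W, {w} ∈ F ∨ ∃ A ∈ F, ∃ B ∈ F, w ∈ A ∧ w ∉ B ∧ A.erase w = B) :
    W.card ≤ (F.filter (fun A => (A ∩ W).Nonempty)).card := by
  set g : Finset V → (W → ℚ) := fun A w => if (w : V) ∈ A then 1 else 0 with hg
  set FW := F.filter (fun A => (A ∩ W).Nonempty) with hFW
  have hspan : ∀ A ∈ F, g A ∈ Submodule.span ℚ (g '' (FW : Set (Finset V))) := by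
    intro A hA
    by_cases hAW : (A ∩ W).Nonempty
    · apply Submodule.subset_span
      exact ⟨A, by simp [hFW, hA, hAW], rfl⟩
    · have : g A = 0 := by
        ext w
        simp only [hg, Pi.zero_apply, ite_eq_right_iff]
        intro hw
        exact absurd ⟨(w : V), mem_inter.2 ⟨hw, w.2⟩⟩ hAW
      rw [this]
      exact Submodule.zero_mem _
  have hsingle : ∀ w : W, (Pi.single w 1 : W → ℚ) ∈
      Submodule.span ℚ (g '' (FW : Set (Finset V))) := by
    intro w
    rcases h w w.2 with h1 | ⟨A, hA, B, hB, hwA, hwB, hAB⟩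
    · have := hspan _ h1
      convert this using 1
      ext w'
      simp only [hg, Pi.single_apply, mem_singleton]
      by_cases hww : w' = w
      · simp [hww]
      · rw [if_neg hww, if_neg (fun h => hww (Subtype.ext h))]
    · have := Submodule.sub_mem _ (hspan _ hA) (hspan _ hB)
      convert this using 1
      ext w'
      simp only [hg, Pi.single_apply, Pi.sub_apply]
      by_cases hww : w' = w
      · subst hww
        simp [hwA, hwB]
      · have hne : (w' : V) ≠ w := fun h => hww (Subtype.ext h)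
        rw [if_neg hww, ← hAB]
        simp [mem_erase, hne]
  have htop : Submodule.span ℚ (g '' (FW : Set (Finset V))) = ⊤ := by
    rw [eq_top_iff]
    rw [← (Pi.basisFun ℚ W).span_eq]
    rw [Submodule.span_le]
    rintro _ ⟨w, rfl⟩
    simpa using hsingle w
  have h1 : Module.finrank ℚ (W → ℚ) = W.card := by simp
  have h2 : Module.finrank ℚ (Submodule.span ℚ ((FW.image g : Finset (W → ℚ)) : Set (W → ℚ))) ≤
      (FW.image g).card := finrank_span_finset_le_card _
  rw [coe_image, htop, finrank_top, h1] at h2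
  exact h2.trans card_image_le

variable (G)

/-- The vertices of the `K₂`-components of `G[C]`. -/
noncomputable def kk (C : Finset V) : Finset V :=
  C.filter (fun a => ∃ b ∈ C, tr G C a = {b} ∧ tr G C b = {a})

/-- `c` is the trace of a vertex outside `C`. -/
def isE (C : Finset V) (c : V) : Prop := ∃ v, v ∉ C ∧ tr G C v = {c}

/-- Two traces differ exactly by `c`. -/
def isL (C : Finset V) (c : V) : Prop :=
  ∃ u v, u ∉ C ∧ v ∉ C ∧ tr G C u ≠ tr G C v ∧ tr G (C.erase c) u = tr G (C.erase c) v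

/-- `c` is the only `C`-neighbour of a vertex of `C`. -/
def isI (C : Finset V) (c : V) : Prop := ∃ e ∈ C, tr G C e = {c}

/-- `z` separates a class. -/
def isSep (C : Finset V) (z : V) : Prop :=
  z ∉ C ∧ ∃ u v, u ∉ C ∧ v ∉ C ∧ u ≠ z ∧ v ≠ z ∧ tr G C u = tr G C v ∧
    ¬ (G.Adj u z ↔ G.Adj v z)

/-- Optimal total dominating set. -/
structure Opt (C : Finset V) : Prop where
  td : TD G C
  mx : ∀ X, TD G X → num G X Xᶜ ≤ num G C Cᶜ
  mn : ∀ X, TD G X → num G X Xᶜ = num G C Cᶜ → C.card ≤ X.card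
  k2 : ∀ X, TD G X → num G X Xᶜ = num G C Cᶜ → X.card = C.card →
    (kk G C).card ≤ (kk G X).card

variable {G}

lemma exists_opt (h : ∀ v : V, ∃ u, G.Adj v u) : ∃ C, Opt G C := by
  have hU : TD G (univ : Finset V) := by
    intro v
    obtain ⟨u, hu⟩ := h v
    exact ⟨u, mem_univ _, hu⟩
  obtain ⟨C₁, hC₁, hmax⟩ := exists_max_image (univ.filter (fun C : Finset V => TD G C))
    (fun C => num G C Cᶜ) ⟨univ, by simp [hU]⟩
  obtain ⟨C₂, hC₂, hmin⟩ := exists_min_image
    (univ.filter (fun C : Finset V => TD G C ∧ num G C Cᶜ = num G C₁ C₁ᶜ))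
    (fun C => C.card) ⟨C₁, by simpa using hC₁⟩
  obtain ⟨C₃, hC₃, hmin3⟩ := exists_min_image
    (univ.filter (fun C : Finset V => TD G C ∧ num G C Cᶜ = num G C₁ C₁ᶜ ∧ C.card = C₂.card))
    (fun C => (kk G C).card) ⟨C₂, by simpa using hC₂⟩
  simp only [mem_filter, mem_univ, true_and] at hC₁ hC₂ hC₃ hmax hmin hmin3
  refine ⟨C₃, hC₃.1, ?_, ?_, ?_⟩
  · intro X hX
    rw [hC₃.2.1]
    exact hmax X hX
  · intro X hX hXe
    rw [hC₃.2.2]
    exact hmin X ⟨hX, hXe.trans hC₃.2.1⟩
  · intro X hX hXe hXc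
    exact hmin3 X ⟨hX, hXe.trans hC₃.2.1, hXc.trans hC₃.2.2⟩

lemma exists_ne_of_tr_ne {C : Finset V} (h : TD G C) {v a : V} (hne : tr G C v ≠ {a}) :
    ∃ u ∈ C, u ≠ a ∧ G.Adj v u := by
  by_contra hcon
  push Not at hcon
  apply hne
  obtain ⟨w, hw⟩ := h.nonempty v
  have hall : ∀ u ∈ tr G C v, u = a := by
    intro u hu
    by_contra hua
    rw [mem_tr] at hu
    exact hcon u hu.1 hua hu.2
  exact eq_singleton_iff_unique_mem.2 ⟨hall w hw ▸ hw, hall⟩

lemma TD.swap {C X : Finset V} {a : V} (h : TD G C) (hX : C.erase a ⊆ X)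
    (h' : ∀ v, tr G C v = {a} → ∃ u ∈ X, G.Adj v u) : TD G X := by
  intro v
  by_cases hv : tr G C v = {a}
  · exact h' v hv
  · obtain ⟨u, hu, hua, huv⟩ := exists_ne_of_tr_ne h hv
    exact ⟨u, hX (mem_erase.2 ⟨hua, hu⟩), huv⟩

lemma num_erase_of_not_isL {C : Finset V} {c : V} (h : ¬ isL G C c) :
    num G C Cᶜ ≤ num G (C.erase c) Cᶜ := by
  apply num_erase_left
  intro u hu v hv he
  by_contra hne
  exact h ⟨u, v, by simpa using hu, by simpa using hv, hne, he⟩

lemma Opt.cover {C : Finset V} (hO : Opt G C) {c : V} (hc : c ∈ C) (hE : ¬ isE G C c)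
    (hL : ¬ isL G C c) : isI G C c := by
  by_contra hI
  have hTD : TD G (C.erase c) := by
    apply hO.td.swap (Subset.refl _)
    intro v hv
    exfalso
    by_cases hvC : v ∈ C
    · exact hI ⟨v, hvC, hv⟩
    · exact hE ⟨v, hvC, hv⟩
  have h1 : num G C Cᶜ ≤ num G (C.erase c) (C.erase c)ᶜ :=
    (num_erase_of_not_isL hL).trans
      (num_mono_right (compl_subset_compl.2 (erase_subset _ _)))
  have h2 := hO.mx _ hTD
  have h3 := hO.mn _ hTD (le_antisymm h2 h1)
  have h4 := card_erase_lt_of_mem hc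
  omega

lemma compl_insert_eq {C : Finset V} {w : V} : (insert w C)ᶜ = Cᶜ.erase w := by
  ext v
  simp only [mem_compl, mem_insert, mem_erase]
  tauto

lemma tr_ne_of_adj {X : Finset V} {u v w : V} (hw : w ∈ X)
    (h : ¬ (G.Adj u w ↔ G.Adj v w)) : tr G X u ≠ tr G X v := by
  intro he
  apply h
  have := congrArg (fun A => w ∈ A) he
  simpa [mem_tr, hw] using this

lemma Opt.single {C : Finset V} (hO : Opt G C) {z : V} (hz : isSep G C z) {w : V}
    (hw : w ∉ C) (hwz : tr G C w = tr G C z) : w = z := by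
  by_contra hne
  obtain ⟨hzC, u, v, hu, hv, huz, hvz, he, hadj⟩ := hz
  have hTD : TD G (insert z C) := hO.td.mono (subset_insert _ _)
  have h1 := hO.mx _ hTD
  rw [compl_insert_eq] at h1
  have h2 : num G C Cᶜ ≤ num G C (Cᶜ.erase z) :=
    num_erase_eq (w' := w) (by simpa using hw) hne hwz
  have h3 : num G C (Cᶜ.erase z) < num G (insert z C) (Cᶜ.erase z) :=
    num_lt (subset_insert _ _) (u := u) (v := v) (by simp [hu, huz]) (by simp [hv, hvz]) he
      (tr_ne_of_adj (mem_insert_self _ _) hadj)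
  omega

lemma Opt.exists_Z {C : Finset V} (hO : Opt G C)
    (htw : ∀ u v : V, u ≠ v → ∃ w, w ≠ u ∧ w ≠ v ∧ ¬ (G.Adj u w ↔ G.Adj v w)) :
    ∃ Z : Finset V, (∀ z ∈ Z, isSep G C z) ∧
      (∀ u, u ∉ C ∪ Z → ∀ v, v ∉ C ∪ Z → tr G (C ∪ Z) u = tr G (C ∪ Z) v → u = v) ∧
      num G (C ∪ Z) (C ∪ Z)ᶜ = num G C Cᶜ := by
  obtain ⟨Z, hZ, hmax⟩ := exists_max_image
    (univ.filter (fun Z : Finset V => (∀ z ∈ Z, isSep G C z) ∧
      num G (C ∪ Z) (C ∪ Z)ᶜ = num G C Cᶜ)) (fun Z => Z.card) ⟨∅, by simp⟩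
  simp only [mem_filter, mem_univ, true_and] at hZ hmax
  refine ⟨Z, hZ.1, ?_, hZ.2⟩
  intro u hu v hv he
  by_contra hne
  obtain ⟨w, hwu, hwv, hadj⟩ := htw u v hne
  have hw : w ∉ C ∪ Z := by
    intro hw
    exact tr_ne_of_adj hw hadj he
  have hwC : w ∉ C := fun h => hw (mem_union_left _ h)
  have hwZ : w ∉ Z := fun h => hw (mem_union_right _ h)
  have hsep : isSep G C w := by
    refine ⟨hwC, u, v, fun h => hu (mem_union_left _ h), fun h => hv (mem_union_left _ h),
      hwu.symm, hwv.symm, tr_eq_of_subset subset_union_left he, hadj⟩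
  have hins : C ∪ insert w Z = insert w (C ∪ Z) := by
    ext x; simp only [mem_union, mem_insert]; tauto
  have hTD : TD G (insert w (C ∪ Z)) :=
    hO.td.mono (subset_union_left.trans (subset_insert _ _))
  have h1 := hO.mx _ hTD
  have h2 : num G (C ∪ Z) (C ∪ Z)ᶜ ≤ num G (C ∪ Z) ((C ∪ Z)ᶜ.erase w) + 1 := num_erase
  have h3 : num G (C ∪ Z) ((C ∪ Z)ᶜ.erase w) < num G (insert w (C ∪ Z)) ((C ∪ Z)ᶜ.erase w) :=
    num_lt (subset_insert _ _) (u := u) (v := v)
      (mem_erase.2 ⟨hwu.symm, mem_compl.2 hu⟩) (mem_erase.2 ⟨hwv.symm, mem_compl.2 hv⟩) he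
      (tr_ne_of_adj (mem_insert_self _ _) hadj)
  rw [compl_insert_eq] at h1
  have h4 := hmax (insert w Z) ⟨by
    intro z hz
    rcases mem_insert.1 hz with rfl | hz
    · exact hsep
    · exact hZ.1 z hz, by
    rw [hins, compl_insert_eq]
    have := hZ.2
    omega⟩
  rw [card_insert_of_notMem hwZ] at h4
  omega

/-- The swap of the `K₂`-component. -/
lemma Opt.pair_aux {C : Finset V} (hO : Opt G C) {a b x : V} (ha : a ∈ C) (hb : b ∈ C)
    (hta : tr G C a = {b}) (htb : tr G C b = {a}) (hEa : ¬ isE G C a) (hEb : ¬ isE G C b)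
    (hLa : ¬ isL G C a) (hx : x ∉ C) (hbx : G.Adj b x)
    (hQ : ∀ q, q ∉ C → tr G C q ≠ {a, b}) : False := by
  have hab : G.Adj a b := (mem_tr.1 (hta ▸ mem_singleton_self b : b ∈ tr G C a)).2
  have hne : a ≠ b := hab.ne
  set X := insert x (C.erase a) with hX
  have hsub : C.erase a ⊆ X := subset_insert _ _
  have hTD : TD G X := by
    apply hO.td.swap hsub
    intro v hv
    have hvC : v ∈ C := by
      by_contra hvC
      exact hEa ⟨v, hvC, hv⟩
    have hva : G.Adj v a := (mem_tr.1 (hv ▸ mem_singleton_self a : a ∈ tr G C v)).2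
    have hvb : v = b := by
      have : v ∈ tr G C a := mem_tr.2 ⟨hvC, hva.symm⟩
      rw [hta] at this
      exact mem_singleton.1 this
    exact ⟨x, mem_insert_self _ _, hvb ▸ hbx⟩
  have hcompl : Xᶜ = (insert a Cᶜ).erase x := by
    ext v
    simp only [hX, mem_compl, mem_insert, mem_erase]
    by_cases hva : v = a
    · subst hva
      simp [ne_of_mem_of_not_mem ha hx]
    · tauto
  have hta' : tr G (C.erase a) a = {b} := by
    rw [tr_erase, hta, erase_eq_of_notMem]
    simpa using hne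
  have h1 : num G (C.erase a) (insert a Cᶜ) = num G (C.erase a) Cᶜ + 1 := by
    apply num_insert
    intro v hv he
    have hvC : v ∉ C := by simpa using hv
    rw [hta', tr_erase] at he
    by_cases hav : a ∈ tr G C v
    · apply hQ v hvC
      rw [← insert_erase hav, he]
    · rw [erase_eq_of_notMem hav] at he
      exact hEb ⟨v, hvC, he⟩
  have h2 := num_erase_of_not_isL hLa
  have h3 : num G (C.erase a) (insert a Cᶜ) ≤ num G (C.erase a) ((insert a Cᶜ).erase x) + 1 :=
    num_erase
  have h4 : num G (C.erase a) Xᶜ ≤ num G X Xᶜ := num_mono_left hsub _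
  have h5 := hO.mx X hTD
  rw [← hcompl] at h3
  have hcard : X.card = C.card := by
    rw [hX, card_insert_of_notMem, card_erase_of_mem ha]
    · have : 0 < C.card := card_pos.2 ⟨a, ha⟩
      omega
    · simp [hx]
  have h6 := hO.k2 X hTD (by omega) hcard
  -- a third vertex
  have hbtr : b ∈ tr G C x := mem_tr.2 ⟨hb, hbx.symm⟩
  obtain ⟨c, hc, hca, hcb⟩ : ∃ c ∈ tr G C x, c ≠ a ∧ c ≠ b := by
    by_contra hcon
    push Not at hcon
    by_cases hax : a ∈ tr G C x
    · apply hQ x hx
      ext w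
      simp only [mem_insert, mem_singleton]
      constructor
      · intro hw
        by_cases hwa : w = a
        · exact Or.inl hwa
        · exact Or.inr (hcon w hw hwa)
      · rintro (rfl | rfl)
        · exact hax
        · exact hbtr
    · apply hEb
      refine ⟨x, hx, ?_⟩
      rw [eq_singleton_iff_unique_mem]
      refine ⟨hbtr, ?_⟩
      intro w hw
      exact hcon w hw (fun h => hax (h ▸ hw))
  have hcX : c ∈ tr G X x := by
    rw [mem_tr] at hc ⊢
    exact ⟨hsub (mem_erase.2 ⟨hca, hc.1⟩), hc.2⟩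
  have hbX : b ∈ tr G X x :=
    mem_tr.2 ⟨hsub (mem_erase.2 ⟨hne.symm, hb⟩), hbx.symm⟩
  have hxX : x ∈ tr G X b := mem_tr.2 ⟨mem_insert_self _ _, hbx⟩
  have hxns : ∀ w, tr G X x ≠ {w} := by
    intro w hw
    rw [hw, mem_singleton] at hcX hbX
    exact hcb (hcX.trans hbX.symm)
  have hkey : ∀ u v, u ∈ X → v ∈ X → tr G X u = {v} → tr G X v = {u} →
      u ≠ x ∧ u ≠ b ∧ v ≠ x ∧ v ≠ b := by
    intro u v _ _ h1 h2
    refine ⟨?_, ?_, ?_, ?_⟩
    · rintro rfl
      exact hxns _ h1
    · rintro rfl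
      rw [h1, mem_singleton] at hxX
      subst hxX
      exact hxns _ h2
    · rintro rfl
      exact hxns _ h2
    · rintro rfl
      rw [h2, mem_singleton] at hxX
      subst hxX
      exact hxns _ h1
  have hstep : ∀ u v, u ∈ X → v ∈ X → u ≠ x → v ≠ x → u ≠ b → tr G X u = {v} →
      tr G C u = {v} := by
    intro u v hu hv hux hvx hub h1
    have hvC : v ∈ C := by
      rcases mem_insert.1 hv with h | h
      · exact absurd h hvx
      · exact mem_of_mem_erase h
    have huC : u ∈ C := by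
      rcases mem_insert.1 hu with h | h
      · exact absurd h hux
      · exact mem_of_mem_erase h
    rw [eq_singleton_iff_unique_mem]
    constructor
    · have : v ∈ tr G X u := h1 ▸ mem_singleton_self v
      exact mem_tr.2 ⟨hvC, (mem_tr.1 this).2⟩
    · intro w hw
      rw [mem_tr] at hw
      by_cases hwa : w = a
      · exfalso
        subst hwa
        have : u ∈ tr G C w := mem_tr.2 ⟨huC, hw.2.symm⟩
        rw [hta, mem_singleton] at this
        exact hub this
      · have : w ∈ tr G X u := mem_tr.2 ⟨hsub (mem_erase.2 ⟨hwa, hw.1⟩), hw.2⟩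
        rw [h1, mem_singleton] at this
        exact this
  have hss : kk G X ⊂ kk G C := by
    rw [ssubset_iff_subset_ne]
    constructor
    · intro u hu
      unfold kk at hu ⊢
      rw [mem_filter] at hu ⊢
      obtain ⟨huX, v, hvX, huv, hvu⟩ := hu
      obtain ⟨h1, h2, h3, h4⟩ := hkey u v huX hvX huv hvu
      have huC : u ∈ C := by
        rcases mem_insert.1 huX with h | h
        · exact absurd h h1
        · exact mem_of_mem_erase h
      have hvC : v ∈ C := by
        rcases mem_insert.1 hvX with h | h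
        · exact absurd h h3
        · exact mem_of_mem_erase h
      exact ⟨huC, v, hvC, hstep u v huX hvX h1 h3 h2 huv, hstep v u hvX huX h3 h1 h4 hvu⟩
    · intro he
      have hbk : b ∈ kk G C := by
        unfold kk
        rw [mem_filter]
        exact ⟨hb, a, ha, htb, hta⟩
      rw [← he] at hbk
      unfold kk at hbk
      rw [mem_filter] at hbk
      obtain ⟨hbX', v, hvX, h1, h2⟩ := hbk
      exact (hkey b v hbX' hvX h1 h2).2.1 rfl
  have h7 := card_lt_card hss
  omega

lemma Opt.pair {C : Finset V} (hO : Opt G C) {a b : V} (ha : a ∈ C) (hb : b ∈ C)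
    (hcl : (insert a (G.neighborSet a) : Set V) ≠ insert b (G.neighborSet b))
    (hta : tr G C a = {b}) (htb : tr G C b = {a}) (hEa : ¬ isE G C a) (hEb : ¬ isE G C b)
    (hLa : ¬ isL G C a) (hLb : ¬ isL G C b) : ∃ q, q ∉ C ∧ tr G C q = {a, b} := by
  by_contra hcon
  push Not at hcon
  have hab : G.Adj a b := (mem_tr.1 (hta ▸ mem_singleton_self b : b ∈ tr G C a)).2
  by_cases h1 : ∃ x, x ∉ C ∧ G.Adj b x
  · obtain ⟨x, hx, hbx⟩ := h1
    exact hO.pair_aux ha hb hta htb hEa hEb hLa hx hbx hcon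
  by_cases h2 : ∃ x, x ∉ C ∧ G.Adj a x
  · obtain ⟨x, hx, hax⟩ := h2
    exact hO.pair_aux hb ha htb hta hEb hEa hLb hx hax
      (fun q hq h => hcon q hq (by rw [h, pair_comm]))
  push Not at h1 h2
  apply hcl
  ext w
  simp only [Set.mem_insert_iff, SimpleGraph.mem_neighborSet]
  constructor
  · rintro (rfl | hw)
    · exact Or.inr hab.symm
    · have hwC : w ∈ C := by
        by_contra h
        exact h2 w h hw
      have : w ∈ tr G C a := mem_tr.2 ⟨hwC, hw⟩
      rw [hta, mem_singleton] at this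
      exact Or.inl this
  · rintro (rfl | hw)
    · exact Or.inr hab
    · have hwC : w ∈ C := by
        by_contra h
        exact h1 w h hw
      have : w ∈ tr G C b := mem_tr.2 ⟨hwC, hw⟩
      rw [htb, mem_singleton] at this
      exact Or.inl this

lemma Opt.pair_not_sep {C : Finset V} (hO : Opt G C) {a b q : V} (ha : a ∈ C)
    (hta : tr G C a = {b}) (hEa : ¬ isE G C a)
    (hLa : ¬ isL G C a) (hq : q ∉ C) (htq : tr G C q = {a, b}) : ¬ isSep G C q := by
  rintro ⟨_, u, v, hu, hv, huq, hvq, he, hadj⟩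
  have hab : G.Adj a b := (mem_tr.1 (hta ▸ mem_singleton_self b : b ∈ tr G C a)).2
  have hne : a ≠ b := hab.ne
  have hqb : G.Adj q b := (mem_tr.1 (htq ▸ (by simp) : b ∈ tr G C q)).2
  set X := insert q (C.erase a) with hX
  have hsub : C.erase a ⊆ X := subset_insert _ _
  have hTD : TD G X := by
    apply hO.td.swap hsub
    intro w hw
    have hwC : w ∈ C := by
      by_contra hwC
      exact hEa ⟨w, hwC, hw⟩
    have hwa : G.Adj w a := (mem_tr.1 (hw ▸ mem_singleton_self a : a ∈ tr G C w)).2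
    have hwb : w = b := by
      have : w ∈ tr G C a := mem_tr.2 ⟨hwC, hwa.symm⟩
      rw [hta] at this
      exact mem_singleton.1 this
    exact ⟨q, mem_insert_self _ _, hwb ▸ hqb.symm⟩
  have hcompl : Xᶜ = (insert a Cᶜ).erase q := by
    ext v
    simp only [hX, mem_compl, mem_insert, mem_erase]
    by_cases hva : v = a
    · subst hva
      simp [ne_of_mem_of_not_mem ha hq]
    · tauto
  have hta' : tr G (C.erase a) a = tr G (C.erase a) q := by
    rw [tr_erase, tr_erase, hta, htq]
    ext w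
    simp only [mem_erase, mem_insert, mem_singleton]
    tauto
  have h2 := num_erase_of_not_isL hLa
  have h3 : num G (C.erase a) Cᶜ ≤ num G (C.erase a) (insert a Cᶜ) :=
    num_mono_right (subset_insert _ _)
  have h4 : num G (C.erase a) (insert a Cᶜ) ≤ num G (C.erase a) ((insert a Cᶜ).erase q) :=
    num_erase_eq (mem_insert_self _ _) (ne_of_mem_of_not_mem ha hq) hta'
  rw [← hcompl] at h4
  have hmem : ∀ w, w ∉ C → w ≠ q → w ∈ Xᶜ := by
    intro w hw hwq
    rw [hcompl]
    simp [hw, hwq]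
  have h5 : num G (C.erase a) Xᶜ < num G X Xᶜ :=
    num_lt hsub (hmem u hu huq) (hmem v hv hvq) (tr_eq_of_subset (erase_subset _ _) he)
      (tr_ne_of_adj (mem_insert_self _ _) hadj)
  have h6 := hO.mx X hTD
  omega

lemma Opt.twin {C Z : Finset V} (hO : Opt G C) (hZC : ∀ z ∈ Z, z ∉ C)
    (hnum : num G (C ∪ Z) (C ∪ Z)ᶜ = num G C Cᶜ) {i : V} (hi : i ∈ C)
    (hE : ¬ isE G C i) (hL : ¬ isL G C i)
    (h : ∀ e ∈ C, tr G C e = {i} → ∃ z ∈ Z, G.Adj e z) :
    ∃ u, u ∉ C ∪ Z ∧ (tr G C u).erase i = tr G C i := by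
  by_contra hcon
  push Not at hcon
  set X := (C ∪ Z).erase i with hX
  have hsub : C.erase i ⊆ X := erase_subset_erase _ subset_union_left
  have hTD : TD G X := by
    apply hO.td.swap hsub
    intro v hv
    have hvC : v ∈ C := by
      by_contra hvC
      exact hE ⟨v, hvC, hv⟩
    obtain ⟨z, hz, hvz⟩ := h v hvC hv
    refine ⟨z, ?_, hvz⟩
    rw [hX, mem_erase]
    exact ⟨fun he => hZC z hz (he ▸ hi), mem_union_right _ hz⟩
  have hcompl : Xᶜ = insert i (C ∪ Z)ᶜ := by
    ext v
    simp only [hX, mem_compl, mem_insert, mem_erase]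
    tauto
  have hii : i ∉ tr G C i := by
    rw [mem_tr]
    rintro ⟨_, h⟩
    exact G.irrefl h
  have h1 : num G X (insert i (C ∪ Z)ᶜ) = num G X (C ∪ Z)ᶜ + 1 := by
    apply num_insert
    intro v hv he
    have hvC : v ∉ C ∪ Z := by simpa using hv
    have := tr_eq_of_subset hsub he
    rw [tr_erase, tr_erase, erase_eq_of_notMem hii] at this
    exact hcon v hvC this
  have h2 : num G (C ∪ Z) (C ∪ Z)ᶜ ≤ num G X (C ∪ Z)ᶜ := by
    apply num_erase_left
    intro u hu v hv he
    have huC : u ∉ C ∪ Z := by simpa using hu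
    have hvC : v ∉ C ∪ Z := by simpa using hv
    have he' := tr_eq_of_subset hsub he
    have he'' : tr G C u = tr G C v := by
      by_contra hne
      exact hL ⟨u, v, fun h => huC (mem_union_left _ h), fun h => hvC (mem_union_left _ h),
        hne, he'⟩
    ext w
    by_cases hw : w = i
    · subst hw
      have := congrArg (fun A => w ∈ A) he''
      simpa [mem_tr, hi] using this
    · have := congrArg (fun A => w ∈ A) he
      simpa [mem_tr, hw] using this
  have h3 := hO.mx X hTD
  rw [hcompl] at h3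
  omega


/-- The counting. -/
theorem Opt.count {C : Finset V} (hO : Opt G C)
    (htw : ∀ u v : V, u ≠ v → ∃ w, w ≠ u ∧ w ≠ v ∧ ¬ (G.Adj u w ↔ G.Adj v w))
    (hcl : ∀ u v : V, u ≠ v →
      (insert u (G.neighborSet u) : Set V) ≠ insert v (G.neighborSet v)) :
    Fintype.card V ≤ 3 * num G C Cᶜ := by
  obtain ⟨Z, hZsep, hZinj, hZnum⟩ := hO.exists_Z htw
  have hZC : ∀ z ∈ Z, z ∉ C := fun z hz => (hZsep z hz).1
  have hZsingle : ∀ z ∈ Z, ∀ w, w ∉ C → tr G C w = tr G C z → w = z :=
    fun z hz w hw h => hO.single (hZsep z hz) hw h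
  set F : Finset (Finset V) := Cᶜ.image (tr G C) with hF
  have hFcard : F.card = num G C Cᶜ := rfl
  have hFmem : ∀ v, v ∉ C → tr G C v ∈ F := fun v hv => mem_image_of_mem _ (mem_compl.2 hv)
  -- the exterior / label vertices
  set EL : Finset V := C.filter (fun c => isE G C c ∨ isL G C c) with hEL
  set I' : Finset V := C.filter (fun c => ¬ (isE G C c ∨ isL G C c)) with hI'
  have hCcard : C.card = EL.card + I'.card := by
    rw [hEL, hI', card_filter_add_card_filter_not]
  set IB : Finset V := I'.filter (fun a => ∃ b ∈ I', tr G C a = {b} ∧ tr G C b = {a}) with hIB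
  set IA : Finset V :=
    I'.filter (fun a => ¬ ∃ b ∈ I', tr G C a = {b} ∧ tr G C b = {a}) with hIA
  have hI'card : I'.card = IB.card + IA.card := by
    rw [hIB, hIA, card_filter_add_card_filter_not]
  set IJ : Finset V := IA.filter (fun i => ∃ e ∈ C, tr G C e = {i} ∧ ∀ z ∈ Z, ¬ G.Adj e z)
    with hIJ
  set IK : Finset V :=
    IA.filter (fun i => ¬ ∃ e ∈ C, tr G C e = {i} ∧ ∀ z ∈ Z, ¬ G.Adj e z) with hIK
  have hIAcard : IA.card = IJ.card + IK.card := by
    rw [hIJ, hIK, card_filter_add_card_filter_not]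
  have hI'mem : ∀ i ∈ I', i ∈ C ∧ ¬ isE G C i ∧ ¬ isL G C i := by
    intro i hi
    rw [hI', mem_filter] at hi
    push Not at hi
    exact ⟨hi.1, hi.2.1, hi.2.2⟩
  have hELmem : ∀ i ∈ EL, i ∈ C ∧ i ∉ I' := by
    intro i hi
    rw [hEL, mem_filter] at hi
    refine ⟨hi.1, ?_⟩
    rw [hI', mem_filter]
    rintro ⟨_, h⟩
    exact h hi.2
  have hIAI : ∀ i ∈ IA, i ∈ I' := fun i hi => mem_of_mem_filter i hi
  -- leaves at type A vertices are in EL
  have hleaf : ∀ i ∈ IA, ∀ e ∈ C, tr G C e = {i} → e ∈ EL := by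
    intro i hi e he hei
    rw [hEL, mem_filter]
    refine ⟨he, ?_⟩
    by_contra hcon
    have heI : e ∈ I' := by
      rw [hI', mem_filter]
      exact ⟨he, hcon⟩
    push Not at hcon
    obtain ⟨v, hv, hve⟩ := hO.cover he hcon.1 hcon.2
    have hvadj : G.Adj v e := (mem_tr.1 (hve ▸ mem_singleton_self e : e ∈ tr G C v)).2
    have hvi : v = i := by
      have : v ∈ tr G C e := mem_tr.2 ⟨hv, hvadj.symm⟩
      rw [hei, mem_singleton] at this
      exact this
    subst hvi
    rw [hIA, mem_filter] at hi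
    exact hi.2 ⟨e, heI, hve, hei⟩
  have hleafex : ∀ i ∈ IA, ∃ e ∈ C, tr G C e = {i} := by
    intro i hi
    obtain ⟨h1, h2, h3⟩ := hI'mem i (hIAI i hi)
    exact hO.cover h1 h2 h3
  -- rank hypothesis
  have hrank : ∀ w ∈ EL, {w} ∈ F ∨ ∃ A ∈ F, ∃ B ∈ F, w ∈ A ∧ w ∉ B ∧ A.erase w = B := by
    intro w hw
    rw [hEL, mem_filter] at hw
    rcases hw.2 with ⟨v, hv, hvw⟩ | ⟨u, v, hu, hv, hne, he⟩
    · left
      rw [← hvw]
      exact hFmem v hv
    · right
      rw [tr_erase, tr_erase] at he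
      by_cases h1 : w ∈ tr G C u
      · have h2 : w ∉ tr G C v := by
          intro h2
          apply hne
          rw [← insert_erase h1, ← insert_erase h2, he]
        exact ⟨_, hFmem u hu, _, hFmem v hv, h1, h2, by rw [he, erase_eq_of_notMem h2]⟩
      · have h2 : w ∈ tr G C v := by
          by_contra h2
          apply hne
          rw [erase_eq_of_notMem h1, erase_eq_of_notMem h2] at he
          exact he
        exact ⟨_, hFmem v hv, _, hFmem u hu, h2, h1, by rw [← he, erase_eq_of_notMem h1]⟩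
  -- the leaves chosen for IJ
  have hJ : ∀ i ∈ IJ, ∃ e ∈ C, tr G C e = {i} ∧ ∀ z ∈ Z, ¬ G.Adj e z := by
    intro i hi
    rw [hIJ, mem_filter] at hi
    exact hi.2
  have hIJA : ∀ i ∈ IJ, i ∈ IA := fun i hi => mem_of_mem_filter i hi
  have hIKA : ∀ i ∈ IK, i ∈ IA := fun i hi => mem_of_mem_filter i hi
  choose! e heC hei heZ using hJ
  have heinj : Set.InjOn e IJ := by
    intro i hi j hj hij
    have h1 := hei i hi
    rw [hij, hei j hj] at h1
    exact (singleton_injective h1).symm
  set EJ : Finset V := IJ.image e with hEJ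
  have hEJcard : EJ.card = IJ.card := card_image_of_injOn heinj
  have hEJsub : EJ ⊆ EL := by
    intro x hx
    rw [hEJ, mem_image] at hx
    obtain ⟨i, hi, rfl⟩ := hx
    exact hleaf i (hIJA i hi) _ (heC i hi) (hei i hi)
  -- the classes for IK
  have hK : ∀ i ∈ IK, ∃ u, u ∉ C ∪ Z ∧ (tr G C u).erase i = tr G C i := by
    intro i hi
    obtain ⟨h1, h2, h3⟩ := hI'mem i (hIAI i (hIKA i hi))
    apply hO.twin hZC hZnum h1 h2 h3
    intro x hx hxi
    rw [hIK, mem_filter] at hi
    by_contra hcon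
    push Not at hcon
    exact hi.2 ⟨x, hx, hxi, hcon⟩
  choose! q hqC hqi using hK
  -- for `i ∈ IK`, a leaf `e` at `i` lies in the trace of `q i`
  have hleaf_q : ∀ i ∈ IK, ∀ x ∈ C, tr G C x = {i} → x ∈ tr G C (q i) := by
    intro i hi x hx hxi
    have h1 : x ∈ tr G C i := by
      have : i ∈ tr G C x := hxi ▸ mem_singleton_self i
      exact mem_tr.2 ⟨hx, (mem_tr.1 this).2.symm⟩
    rw [← hqi i hi] at h1
    exact mem_of_mem_erase h1
  have hleaf_q' : ∀ i ∈ IK, ∀ j ∈ IA, ∀ x ∈ C, tr G C x = {j} → x ∈ tr G C (q i) → j = i := by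
    intro i hi j hj x hx hxj hxq
    have hxne : x ≠ i := by
      rintro rfl
      exact (hELmem x (hleaf j hj x hx hxj)).2 (hIAI x (hIKA x hi))
    have h1 : x ∈ tr G C i := by
      rw [← hqi i hi]
      exact mem_erase.2 ⟨hxne, hxq⟩
    have h2 : i ∈ tr G C x :=
      mem_tr.2 ⟨(hI'mem i (hIAI i (hIKA i hi))).1, (mem_tr.1 h1).2.symm⟩
    rw [hxj, mem_singleton] at h2
    exact h2.symm
  -- the four families
  set F1 : Finset (Finset V) := Z.image (tr G C) with hF1
  set F2 : Finset (Finset V) := F.filter (fun A => (A ∩ EJ).Nonempty) with hF2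
  set F3 : Finset (Finset V) := IK.image (fun i => tr G C (q i)) with hF3
  set F4 : Finset (Finset V) := IB.image (fun a => insert a (tr G C a)) with hF4
  set F5 : Finset (Finset V) := F.filter (fun A => (A ∩ EL).Nonempty) with hF5
  have hF1card : F1.card = Z.card := by
    apply card_image_of_injOn
    intro z hz z' hz' h
    exact hZsingle z' hz' z (hZC z hz) h
  have hF2card : EJ.card ≤ F2.card := rank_lemma F EJ (fun w hw => hrank w (hEJsub hw))
  have hF5card : EL.card ≤ F5.card := rank_lemma F EL hrank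
  have hF3card : F3.card = IK.card := by
    apply card_image_of_injOn
    intro i hi j hj h
    simp only at h
    obtain ⟨x, hx, hxi⟩ := hleafex i (hIKA i hi)
    have h1 := hleaf_q i hi x hx hxi
    rw [h] at h1
    exact hleaf_q' j hj i (hIKA i hi) x hx hxi h1
  have hIBmem : ∀ a ∈ IB, a ∈ I' ∧ ∃ b ∈ I', tr G C a = {b} ∧ tr G C b = {a} := by
    intro a ha
    rw [hIB, mem_filter] at ha
    exact ha
  have hF4card : IB.card ≤ 2 * F4.card := by
    apply card_le_mul_card_image
    intro A hA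
    rw [mem_image] at hA
    obtain ⟨a, ha, rfl⟩ := hA
    obtain ⟨haI, b, hbI, hab, hba⟩ := hIBmem a ha
    calc (IB.filter (fun x => insert x (tr G C x) = insert a (tr G C a))).card
        ≤ ({a, b} : Finset V).card := by
          apply card_le_card
          intro x hx
          rw [mem_filter] at hx
          have : x ∈ insert x (tr G C x) := mem_insert_self _ _
          rw [hx.2, hab] at this
          exact this
      _ ≤ 2 := card_le_two
  -- members of F4
  have hF4mem : ∀ A ∈ F4, ∃ v, v ∉ C ∧ v ∉ Z ∧ tr G C v = A ∧ ∀ x ∈ A, x ∈ I' := by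
    intro A hA
    rw [hF4, mem_image] at hA
    obtain ⟨a, ha, rfl⟩ := hA
    obtain ⟨haI, b, hbI, hab, hba⟩ := hIBmem a ha
    obtain ⟨ha1, ha2, ha3⟩ := hI'mem a haI
    obtain ⟨hb1, hb2, hb3⟩ := hI'mem b hbI
    have hne : a ≠ b := by
      rintro rfl
      have : a ∈ tr G C a := hab ▸ mem_singleton_self a
      exact G.irrefl (mem_tr.1 this).2
    obtain ⟨v, hv, hvt⟩ := hO.pair ha1 hb1 (hcl a b hne) hab hba ha2 hb2 ha3 hb3
    refine ⟨v, hv, ?_, ?_, ?_⟩
    · intro hvZ
      exact hO.pair_not_sep ha1 hab ha2 ha3 hv hvt (hZsep v hvZ)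
    · rw [hvt, hab]
    · intro x hx
      rw [hab, mem_insert, mem_singleton] at hx
      rcases hx with rfl | rfl
      · exact haI
      · exact hbI
  have hF1sub : F1 ⊆ F := by
    intro A hA
    rw [hF1, mem_image] at hA
    obtain ⟨z, hz, rfl⟩ := hA
    exact hFmem z (hZC z hz)
  have hF2sub : F2 ⊆ F := filter_subset _ _
  have hF5sub : F5 ⊆ F := filter_subset _ _
  have hF3sub : F3 ⊆ F := by
    intro A hA
    rw [hF3, mem_image] at hA
    obtain ⟨i, hi, rfl⟩ := hA
    exact hFmem _ (fun h => hqC i hi (mem_union_left _ h))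
  have hF4sub : F4 ⊆ F := by
    intro A hA
    obtain ⟨v, hv, _, hvt, _⟩ := hF4mem A hA
    rw [← hvt]
    exact hFmem v hv
  -- disjointness
  have h12 : Disjoint F1 F2 := by
    rw [disjoint_left]
    intro A hA1 hA2
    rw [hF1, mem_image] at hA1
    obtain ⟨z, hz, rfl⟩ := hA1
    rw [hF2, mem_filter] at hA2
    obtain ⟨x, hx⟩ := hA2.2
    rw [mem_inter, hEJ, mem_image] at hx
    obtain ⟨hx1, i, hi, rfl⟩ := hx
    exact heZ i hi z hz (mem_tr.1 hx1).2.symm
  have h13 : Disjoint F1 F3 := by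
    rw [disjoint_left]
    intro A hA1 hA3
    rw [hF1, mem_image] at hA1
    obtain ⟨z, hz, rfl⟩ := hA1
    rw [hF3, mem_image] at hA3
    obtain ⟨i, hi, h⟩ := hA3
    have h1 := hZsingle z hz (q i) (fun h => hqC i hi (mem_union_left _ h)) h
    exact hqC i hi (mem_union_right _ (h1 ▸ hz))
  have h14 : Disjoint F1 F4 := by
    rw [disjoint_left]
    intro A hA1 hA4
    rw [hF1, mem_image] at hA1
    obtain ⟨z, hz, rfl⟩ := hA1
    obtain ⟨v, hv, hvZ, hvt, _⟩ := hF4mem _ hA4
    exact hvZ (hZsingle z hz v hv hvt ▸ hz)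
  have h23 : Disjoint F2 F3 := by
    rw [disjoint_left]
    intro A hA2 hA3
    rw [hF3, mem_image] at hA3
    obtain ⟨i, hi, rfl⟩ := hA3
    rw [hF2, mem_filter] at hA2
    obtain ⟨x, hx⟩ := hA2.2
    rw [mem_inter, hEJ, mem_image] at hx
    obtain ⟨hx1, j, hj, rfl⟩ := hx
    have hji := hleaf_q' i hi j (hIJA j hj) _ (heC j hj) (hei j hj) hx1
    subst hji
    rw [hIK, mem_filter] at hi
    rw [hIJ, mem_filter] at hj
    exact hi.2 hj.2
  have h24 : Disjoint F2 F4 := by
    rw [disjoint_left]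
    intro A hA2 hA4
    obtain ⟨v, hv, hvZ, hvt, hall⟩ := hF4mem _ hA4
    rw [hF2, mem_filter] at hA2
    obtain ⟨x, hx⟩ := hA2.2
    rw [mem_inter] at hx
    exact (hELmem x (hEJsub hx.2)).2 (hall x hx.1)
  have h34 : Disjoint F3 F4 := by
    rw [disjoint_left]
    intro A hA3 hA4
    obtain ⟨v, hv, hvZ, hvt, hall⟩ := hF4mem _ hA4
    rw [hF3, mem_image] at hA3
    obtain ⟨i, hi, rfl⟩ := hA3
    obtain ⟨x, hx, hxi⟩ := hleafex i (hIKA i hi)
    have h1 := hleaf_q i hi x hx hxi
    exact (hELmem x (hleaf i (hIKA i hi) x hx hxi)).2 (hall x h1)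
  have h45 : Disjoint F4 F5 := by
    rw [disjoint_left]
    intro A hA4 hA5
    obtain ⟨v, hv, hvZ, hvt, hall⟩ := hF4mem _ hA4
    rw [hF5, mem_filter] at hA5
    obtain ⟨x, hx⟩ := hA5.2
    rw [mem_inter] at hx
    exact (hELmem x hx.2).2 (hall x hx.1)
  have hsum1 : F4.card + F5.card ≤ F.card := by
    rw [← card_union_of_disjoint h45]
    exact card_le_card (union_subset hF4sub hF5sub)
  have hsum2 : F1.card + F2.card + F3.card + F4.card ≤ F.card := by
    rw [← card_union_of_disjoint h12, ← card_union_of_disjoint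
      (disjoint_union_left.2 ⟨h13, h23⟩), ← card_union_of_disjoint
      (disjoint_union_left.2 ⟨disjoint_union_left.2 ⟨h14, h24⟩, h34⟩)]
    exact card_le_card (union_subset (union_subset (union_subset hF1sub hF2sub) hF3sub) hF4sub)
  -- the number of vertices
  have hn : Fintype.card V = C.card + Cᶜ.card := (card_add_card_compl C).symm
  have hCc : Cᶜ.card = Z.card + (C ∪ Z)ᶜ.card := by
    have hd : Disjoint Z (C ∪ Z)ᶜ := by
      rw [disjoint_left]
      intro z hz hz'
      exact (mem_compl.1 hz') (mem_union_right _ hz)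
    rw [← card_union_of_disjoint hd]
    congr 1
    ext v
    simp only [mem_compl, mem_union]
    by_cases hv : v ∈ Z
    · simp [hv, hZC v hv]
    · simp [hv]
  have hinj : num G (C ∪ Z) (C ∪ Z)ᶜ = (C ∪ Z)ᶜ.card := by
    unfold num
    apply card_image_of_injOn
    intro u hu v hv h
    exact hZinj u (by simpa using hu) v (by simpa using hv) h
  omega

theorem main (hiso : ∀ v : V, ∃ u, G.Adj v u)
    (hop : ∀ u v : V, u ≠ v → G.neighborSet u ≠ G.neighborSet v)
    (hcl : ∀ u v : V, u ≠ v →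
      (insert u (G.neighborSet u) : Set V) ≠ insert v (G.neighborSet v)) :
    ∃ C : Finset V, TD G C ∧ Fintype.card V ≤ 3 * num G C Cᶜ := by
  have htw : ∀ u v : V, u ≠ v → ∃ w, w ≠ u ∧ w ≠ v ∧ ¬ (G.Adj u w ↔ G.Adj v w) := by
    intro u v huv
    by_contra hcon
    push Not at hcon
    by_cases hadj : G.Adj u v
    · apply hcl u v huv
      ext w
      simp only [Set.mem_insert_iff, SimpleGraph.mem_neighborSet]
      by_cases h1 : w = u
      · subst h1
        simp [hadj.symm]
      by_cases h2 : w = v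
      · subst h2
        simp [hadj]
      simp only [h1, h2, false_or]
      exact hcon w h1 h2
    · apply hop u v huv
      ext w
      simp only [SimpleGraph.mem_neighborSet]
      by_cases h1 : w = u
      · subst h1
        simp [show ¬ G.Adj v w from fun h => hadj h.symm]
      by_cases h2 : w = v
      · subst h2
        simp [hadj]
      exact hcon w h1 h2
  obtain ⟨C, hC⟩ := exists_opt hiso
  exact ⟨C, hC.td, hC.count htw hcl⟩

/-- Every twin-free graph of order `n` without isolated vertices has a locating-total dominating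
set of size at most `2n/3`. -/
theorem ltd (hiso : ∀ v : V, ∃ u, G.Adj v u)
    (hop : ∀ u v : V, u ≠ v → G.neighborSet u ≠ G.neighborSet v)
    (hcl : ∀ u v : V, u ≠ v →
      (insert u (G.neighborSet u) : Set V) ≠ insert v (G.neighborSet v)) :
    ∃ D : Finset V,
        (∀ v : V, ∃ u ∈ D, G.Adj v u) ∧
        (∀ u v : V, u ∉ D → v ∉ D → u ≠ v →
          {w : V | w ∈ D ∧ G.Adj u w} ≠ {w : V | w ∈ D ∧ G.Adj v w}) ∧
        3 * D.card ≤ 2 * Fintype.card V := by
  obtain ⟨C, hTD, hcard⟩ := main hiso hop hcl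
  obtain ⟨T, hTsub, hTinj, hTim⟩ : ∃ T : Finset V, T ⊆ Cᶜ ∧ Set.InjOn (tr G C) T ∧
      T.image (tr G C) = Cᶜ.image (tr G C) := by
    have hs : Set.SurjOn (tr G C) (Cᶜ : Finset V) ((Cᶜ.image (tr G C) : Finset (Finset V)) :
        Set (Finset V)) := by
      intro A hA
      rw [mem_coe, mem_image] at hA
      obtain ⟨v, hv, rfl⟩ := hA
      exact ⟨v, mem_coe.2 hv, rfl⟩
    obtain ⟨T, h1, h2, h3⟩ := exists_subset_injOn_image_eq_of_surjOn _ _ hs
    exact ⟨T, by exact_mod_cast h1, h2, h3⟩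
  have hTcard : T.card = num G C Cᶜ := by
    unfold num
    rw [← hTim, card_image_of_injOn hTinj]
  have hCT : C ⊆ Tᶜ := by
    intro x hx
    rw [mem_compl]
    intro hxT
    exact (mem_compl.1 (hTsub hxT)) hx
  refine ⟨Tᶜ, hTD.mono hCT, ?_, ?_⟩
  · intro u v hu hv huv he
    apply huv
    apply hTinj (by simpa using hu) (by simpa using hv)
    apply tr_eq_of_subset hCT
    ext w
    have := congrArg (fun A => w ∈ A) he
    simpa [mem_tr] using this
  · rw [card_compl, hTcard]
    omega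

end Pool.Agent.LTD
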